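import Pool.Agent.Helper6.CX.Goals

/-! # Project CX, packet CYC -/

open Equiv
open scoped Pointwise

namespace Pool.Agent.Helper70.CX

open Pool.Agent.Helper6.CX

/-- the invariant set of a set of cycles -/
noncomputable def fx {n : ℕ} (x : Perm (Fin n)) (f : Quotient (Perm.SameCycle.setoid x) → Bool) :
    Finset (Fin n) :=
  Finset.univ.filter fun i => f (Quotient.mk (Perm.SameCycle.setoid x) i) = true

theorem fx_fixed {n : ℕ} (x : Perm (Fin n)) (f : Quotient (Perm.SameCycle.setoid x) → Bool) :
    x • fx x f = fx x f := by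
  ext i
  rw [Finset.mem_smul_finset]
  constructor
  · rintro ⟨j, hj, rfl⟩
    unfold fx at *
    rw [Finset.mem_filter] at *
    refine ⟨Finset.mem_univ _, ?_⟩
    have : Quotient.mk (Perm.SameCycle.setoid x) (x • j) = Quotient.mk (Perm.SameCycle.setoid x) j := by
      apply Quotient.sound
      exact (Perm.sameCycle_apply_left).2 (Perm.SameCycle.refl x j)
    rw [this]
    exact hj.2
  · intro hi
    refine ⟨x⁻¹ i, ?_, by simp⟩
    unfold fx at *
    rw [Finset.mem_filter] at *
    refine ⟨Finset.mem_univ _, ?_⟩
    have : Quotient.mk (Perm.SameCycle.setoid x) (x⁻¹ i) = Quotient.mk (Perm.SameCycle.setoid x) i := by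
      apply Quotient.sound
      exact ⟨1, by simp⟩
    rw [this]
    exact hi.2

theorem fx_inj {n : ℕ} (x : Perm (Fin n)) : Function.Injective (fx x) := by
  intro f g h
  funext q
  obtain ⟨i, rfl⟩ := Quotient.exists_rep q
  have h1 : i ∈ fx x f ↔ i ∈ fx x g := by rw [h]
  unfold fx at h1
  rw [Finset.mem_filter, Finset.mem_filter] at h1
  simp only [Finset.mem_univ, true_and] at h1
  exact Bool.eq_iff_iff.2 h1

theorem pow_cyc_le {n : ℕ} (x : Perm (Fin n)) :
    2 ^ cyc x ≤ Nat.card (MulAction.fixedBy (Finset (Fin n)) x) := by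
  have h1 : Nat.card (Quotient (Perm.SameCycle.setoid x) → Bool) = 2 ^ cyc x := by
    rw [Nat.card_fun]
    simp [cyc]
  rw [← h1]
  refine Nat.card_le_card_of_injective
    (fun f => (⟨fx x f, fx_fixed x f⟩ : MulAction.fixedBy (Finset (Fin n)) x)) ?_
  intro f g h
  exact fx_inj x (Subtype.ext_iff.1 h)

theorem same_orbit {n : ℕ} {s t : Finset (Fin n)} (h : s.card = t.card) :
    ∃ g : Perm (Fin n), g • s = t := by
  have e : {x // x ∈ s} ≃ {x // x ∈ t} := Fintype.equivOfCardEq (by simpa using h)
  refine ⟨e.extendSubtype, ?_⟩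
  refine Finset.eq_of_subset_of_card_le ?_ (by rw [Finset.card_smul_finset, h])
  intro y hy
  rw [Finset.mem_smul_finset] at hy
  obtain ⟨z, hz, rfl⟩ := hy
  exact e.extendSubtype_mem z hz

theorem orbits_le (n : ℕ) :
    Nat.card (MulAction.orbitRel.Quotient (Perm (Fin n)) (Finset (Fin n))) ≤ n + 1 := by
  have hwd : ∀ s t : Finset (Fin n), (MulAction.orbitRel (Perm (Fin n)) (Finset (Fin n))) s t →
      (⟨s.card, by have := Finset.card_le_univ s; simp at this; omega⟩ : Fin (n + 1)) =
      ⟨t.card, by have := Finset.card_le_univ t; simp at this; omega⟩ := by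
    intro s t hst
    rw [MulAction.orbitRel_apply] at hst
    obtain ⟨g, hg⟩ := hst
    apply Fin.ext
    show s.card = t.card
    rw [← hg]
    exact Finset.card_smul_finset g t
  have h := Nat.card_le_card_of_injective
    (Quotient.lift (fun s : Finset (Fin n) =>
      (⟨s.card, by have := Finset.card_le_univ s; simp at this; omega⟩ : Fin (n + 1))) hwd) ?_
  · simpa using h
  · intro a b
    induction a using Quotient.inductionOn with
    | h s =>
      induction b using Quotient.inductionOn with
      | h t =>
        intro hab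
        have hc : s.card = t.card := by
          have := Fin.ext_iff.1 hab
          exact this
        obtain ⟨g, hg⟩ := same_orbit hc.symm
        apply Quotient.sound
        exact ⟨g, hg⟩

theorem thm : S_CYC := by
  classical
  intro n K
  have hB := MulAction.sum_card_fixedBy_eq_card_orbits_mul_card_group (Perm (Fin n)) (Finset (Fin n))
  have h1 : Nat.card {x : Perm (Fin n) // K ≤ cyc x} * 2 ^ K ≤
      ∑ x : Perm (Fin n), Fintype.card (MulAction.fixedBy (Finset (Fin n)) x) := by
    rw [Nat.card_eq_fintype_card, Fintype.card_subtype, ← smul_eq_mul, ← Finset.sum_const]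
    refine (Finset.sum_le_sum fun x hx => ?_).trans
      (Finset.sum_le_sum_of_subset (Finset.filter_subset _ _))
    rw [Finset.mem_filter] at hx
    rw [← Nat.card_eq_fintype_card]
    exact (Nat.pow_le_pow_right (by norm_num) hx.2).trans (pow_cyc_le x)
  refine h1.trans ?_
  rw [hB, Fintype.card_perm, Fintype.card_fin, ← Nat.card_eq_fintype_card]
  exact Nat.mul_le_mul_right _ (orbits_le n)

end Pool.Agent.Helper70.CX
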