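import Pool.Agent.Helper6.CX.Goals

/-! # Project CX, packet DEEP -/

open Equiv

namespace Pool.Agent.Helper70.CX

open Pool.Agent.Helper6.CX

theorem rot_val {n : ℕ} (x : Fin n) (h : x.val + 1 < n) : (finRotate n x).val = x.val + 1 := by
  obtain _ | k := n
  · exact absurd h (by omega)
  · rw [coe_finRotate_of_ne_last]
    intro h1
    rw [h1] at h
    simp at h

theorem rot_pow_val {n : ℕ} (x : Fin n) (k : ℕ) (h : x.val + k < n) :
    (((finRotate n) ^ k) x).val = x.val + k := by
  induction k with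
  | zero => simp
  | succ k ih =>
    rw [pow_succ', Perm.mul_apply, rot_val, ih (by omega)]
    · omega
    · rw [ih (by omega)]; omega

theorem X_pow_val {n : ℕ} (ι : Perm (Fin n)) (x : Fin n) (k : ℕ) (h : x.val + k < n)
    (hι : ∀ r : Fin n, x.val ≤ r.val → r.val < x.val + k → ι r = r) :
    (((finRotate n * ι) ^ k) x).val = x.val + k := by
  induction k with
  | zero => simp
  | succ k ih =>
    have h1 := ih (by omega) (fun r h1 h2 => hι r h1 (by omega))
    rw [pow_succ', Perm.mul_apply, Perm.mul_apply, hι _ (by omega) (by omega), rot_val, h1]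
    · omega
    · rw [h1]; omega

theorem thm_DEEP : S_DEEP := by
  intro n N m N₀ c φ ι₁ p hm hStd hι hD
  obtain ⟨hN, hc, hinj, hφ⟩ := hStd
  obtain ⟨hR, hq⟩ := hD
  set D := 2 * m + 1 with hDdef
  set l := ((2 * m - 1) * (p.val - 2)) % D with hl
  have hlD : l < D := Nat.mod_lt _ (by omega)
  have hp2 : 2 ≤ p.val := by nlinarith
  have hlm : l * m ≤ 2 * m * m := by
    exact Nat.mul_le_mul_right m (by omega)
  have hlp : l * m ≤ p.val := hlm.trans hR
  have hmod : l * m ≡ p.val - 2 [MOD D] := by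
    have h1 : l ≡ (2 * m - 1) * (p.val - 2) [MOD D] := Nat.mod_modEq _ _
    have h2 : l * m ≡ (2 * m - 1) * (p.val - 2) * m [MOD D] := h1.mul_right m
    have h3 : (2 * m - 1) * m ≡ 1 [MOD D] := by
      obtain ⟨k, rfl⟩ : ∃ k, m = k + 1 := ⟨m - 1, by omega⟩
      have h4 : (2 * (k + 1) - 1) * (k + 1) = 1 + D * k := by
        rw [hDdef, show 2 * (k + 1) - 1 = 2 * k + 1 by omega]
        ring
      rw [h4]
      unfold Nat.ModEq
      rw [Nat.add_mul_mod_self_left]
    have h5 : (2 * m - 1) * (p.val - 2) * m = ((2 * m - 1) * m) * (p.val - 2) := by ring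
    rw [h5] at h2
    have h6 := h3.mul_right (p.val - 2)
    rw [one_mul] at h6
    exact h2.trans h6
  have hqmod : (p.val - l * m) % D = 2 := by
    have h1 : l * m + 2 ≡ (p.val - 2) + 2 [MOD D] := hmod.add_right 2
    have h2 : (p.val - 2) + 2 = l * m + (p.val - l * m) := by omega
    rw [h2] at h1
    have h3 : 2 ≡ p.val - l * m [MOD D] := Nat.ModEq.add_left_cancel' _ h1
    have h4 : 2 % D = (p.val - l * m) % D := h3
    rw [← h4, Nat.mod_eq_of_lt (by omega)]
  obtain ⟨i, hi, hci⟩ := hq (p.val - l * m) (by omega) (by omega)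
  have hqval : p.val - l * m = D * c i + 2 := by
    have := Nat.div_add_mod (p.val - l * m) D
    rw [hqmod, ← hci] at this
    exact this.symm
  have hiN : i < N := by omega
  have hcn := hc i hi
  have hφi : (φ ⟨i, hiN⟩).val = D * c i := by
    rw [hφ]
    simp only
    rw [Nat.mod_eq_of_lt hi, Nat.div_eq_of_lt hi, zero_mul, add_zero]
  have hD7 : 7 ≤ D := by omega
  have hs2 : (((finRotate n) ^ 2) (φ ⟨i, hiN⟩)).val = D * c i + 2 := by
    rw [rot_pow_val, hφi]
    rw [hφi]
    have : D * (c i + 1) = D * c i + D := by ring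
    omega
  have hpn := p.isLt
  rw [Finset.mem_biUnion]
  refine ⟨l, Finset.mem_range.2 (by omega), ?_⟩
  rw [Finset.mem_image]
  refine ⟨((finRotate n) ^ 2) (φ ⟨i, hiN⟩), ?_, ?_⟩
  · unfold lay2
    exact Finset.mem_image_of_mem _ (Finset.mem_univ _)
  · apply Fin.ext
    rw [← pow_mul, X_pow_val, hs2, ← hqval]
    · have : m * l = l * m := mul_comm m l
      omega
    · rw [hs2, ← hqval]
      have : m * l = l * m := mul_comm m l
      omega
    · intro r h1 h2
      rw [hs2, ← hqval] at h1 h2
      have h3 : m * l = l * m := mul_comm m l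
      refine hι r ?_
      exact hq r.val (by omega) (by omega)

end Pool.Agent.Helper70.CX
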